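import Mathlib
import Pool.Agent.Helper56.LP.Et

/-!
# Lower semicontinuity of minimal log discrepancies of nondegenerate pairs

`Y ∋ P`: an affine toric variety of dimension `d + r` with a fixed point, given by any strictly
convex rational cone of dimension `d + r` (simplicial or not). `Z ⊂ Y`: a subvariety through `P` of
any codimension `r ≥ 0`, the closure of the zero set `{F_1 = ... = F_r = 0}` in the torus of Laurent
polynomials `F_j` which generate a prime ideal. `G_1, ..., G_s`: any number of Laurent polynomials
which do not vanish identically on `Z`. The system is nondegenerate at `P` (Kouchnirenko, Khovanskii):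
for all weights `w` in the interior of the cone the zero set in the torus of the initial forms of
`F_1, ..., F_r` is smooth of codimension `r` or empty, and the zero sets of the initial forms of the
`G_k` are smooth on it and meet transversally. Nothing is assumed for the weights on the boundary of
the cone: `Z` and the `G_k` may be arbitrarily singular along the torus orbits through `P`.
The boundary on `Z`: the one of `(K_Y + X_1 + ... + X_r + ∑ b_k G_k + ∑ β_i D_i)|_Z`, where `X_j` and
`G_k` are the closures of the zero sets of `F_j` and `G_k`, the `D_i` are the toric prime divisors,
`0 ≤ b_k ≤ 1` and `β_i ≥ 0`. `Z` is normal and of klt type (in the embedded sense: for some boundary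
of this form the pair on `Y` is klt for the toric valuations over `P`, uniformly).

`(X, B)`: any pair, `B` effective, `K_X + B` `ℝ`-Cartier, which at the closed point `x` is étale locally
isomorphic to such a nondegenerate pair at `P` (`Chart`, `Chart.IsBdry`): there is a variety `U` with
étale morphisms to `X` and `Z` and a closed point over `x` and `P`, such that the pull-backs of
`K_X + B` and of `(K_Y + X_1 + ... + X_r + ∑ b_k G_k + ∑ β_i D_i)|_Z` agree. The pair `(X, B)` need not
be log canonical.

Theorem: the function `mld (X, B)` on the closed points of `X` is lower semicontinuous at `x`: there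
is an open neighbourhood of `x`, which does not depend on the coefficients of the boundary, with
`mld_x' (X, B) ≥ mld_x (X, B)` for all its closed points `x'`. So it is lower semicontinuous on `X` if
there are such charts at all closed points of `X`. A nondegenerate pair is its own chart at `P`
(`nondegenerate_pair`).

The proof. Let `v` be a prime divisor over `Z` with centre `x'` and weights `w`, and `η` the point
`(ξ_l t^(w_l))_l` of the torus over the field of rational functions over the residue field of `v`,
where the `ξ_l` are the residues of the coordinates; `K'` is the set of the `k` such that the order of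
`G_k` along `v` is bigger than the least weight `φ_(G_k) (w)`. If `x'` is close to `P` then (limits of
such points over an ultrafilter; valuation rings which dominate `P`; Zariski's main theorem for the
dimension of a fibre; the nondegeneracy for interior weights over the limit field) there is a set `J`
of edges of the cone such that `w + ∑_J E_j` lies in the interior of the cone, the logarithmic
gradients at `η` of the initial forms of the `F_j` and of the `G_k`, `k ∈ K'`, are independent, and
`tr.deg. (η) + |J| + |I_0| ≤ d + r`, where `I_0` is the set of the members `F_j`, `G_k`, `k ∈ K'`, of the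
system with a monomial which is minimal for `w` and for all the edges in `J`. The relations between
the coordinates of `η` give functions which show that the log discrepancy of `v` is at least the toric
log discrepancy of `w' = w + ∑_J E_j`; and `mld_P (Z, B)` is at most this number: by combinatorial
inversion of adjunction it suffices to show this for the weights which satisfy Bernstein's condition,
and then it is the log discrepancy of a prime divisor over `P`. The step from `Z` to `X` is the
invariance of the log discrepancies under étale morphisms.

All definitions are in `Pool.Agent.Helper56.LP.EtDefs` (`Chart`, `Chart.IsBdry`),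
`Pool.Agent.Helper56.LP.Defs` (`Bdry`, `laP`, `NondegPair`, `IsRestrAt`, `KltPair`) and in the
library: `CIGerm` (`Helper43K9.CI.Defs`), `wt`, `Inn`, `expo`, `phi`, `dot` (`Helper43K9.NH.Defs`),
`Etale`, `OverPt`, `Ext`, `ordE` (`Helper58K9.ET.Defs`), `mld` (`Helper58K9.AR.Mld`), `AffVar`, `Pt`,
`EffDiv`, `LocEq`, `IsLogDisc` (`W497.Mld.Defs`, `H436R3`).
-/

set_option autoImplicit false

namespace Pool.Agent.Results.MP_f23696_ag.NondegeneratePairs

open Pool.Agent.W497.Mld Pool.Agent.H436R3.KT Pool.Agent.Helper43K9.CI Pool.Agent.Helper56.LP
open Pool.Agent.Helper58K9.AR (mld)

/-- A nondegenerate pair has a chart at the fixed point. -/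
theorem nondegenerate_pair {r d s : ℕ} (hdr : 0 < d + r) {L : Type} [Field L] [Algebra ℂ L]
    (g : CIGerm r d L) (G : Fin s → MvPolynomial (Fin (d + r)) ℂ)
    (hG : ∀ k, MvPolynomial.aeval g.y (G k) ≠ 0) (hnd : NondegPair g G) (hn : IsNormal g.X)
    (hk : KltPair g G) (b : Bdry g G) (B : EffDiv g.X) (E : ∀ x : Pt g.X, LocEq B x)
    (hE : ∀ x, IsRestrAt b (E x)) : (selfChart hdr g G hG hnd hn hk).IsBdry b E :=
  selfChart_isBdry hdr g G hG hnd hn hk b E hE

/-- **Lower semicontinuity of minimal log discrepancies** at the closed point `x` of the pair
`(X, B)`, if `(X, B)` is étale locally at `x` a nondegenerate pair. -/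
theorem result {K : Type} [Field K] [Algebra ℂ K] (X : AffVar K) (x : Pt X) (C : Chart X x) :
    ∃ f : X.R, x f ≠ 0 ∧ ∀ (B : EffDiv X) (E : ∀ x : Pt X, LocEq B x) (b : Bdry C.g C.G),
      C.IsBdry b E → ∀ x' : Pt X, x' f ≠ 0 → mld (E x) ≤ mld (E x') :=
  C.lsc

end Pool.Agent.Results.MP_f23696_ag.NondegeneratePairs
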